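import Pool.Agent.Q79.QD.Pt

/-!
# A smooth quasi-diagonal of genus four (problem MP_d64a6e_ag, Q1: yes)

The definitions are in `Pool.Agent.Q79.QD.CurveDefs` and `Pool.Agent.Q79.QD.LBDefs`: a smooth projective
integral complex curve of genus `g` (`IsSmoothCurve`), line bundles given by cocycles and ample line
bundles (`LBd`, `LBd.IsAmple`), the product `E ^ n` and its projections (`pwr`, `pr`), and
quasi-diagonals over `(E, L)` (`IsQuasiDiagonal`).

Here `E` is the plane cubic `X³ - 3 X Z² + Y³ = 0`, the curve `S` is the curve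
`X₁³ - 3 X₁ Z² + Y³ = X₂² + X₁ X₂ + X₁² - 3 Z² = 0` in projective three-space, the two components of
the embedding `S → E × E` are `(X₁ : Y : Z)` and `(X₂ : Y : Z)`, and `L = 𝒪(1)`.  The curve `S` is
the residual curve of the diagonal in the fibre product of `E` with itself over the `Y`-line: a point
of `S` is a pair of points of `E` with the same coordinate `Y / Z`.
-/

set_option autoImplicit false

open AlgebraicGeometry CategoryTheory Limits MvPolynomial

namespace Pool.Agent.Results.MP_d64a6e_ag.SmoothGenusFour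

open Pool.Agent.Helper304.Ses Pool.Agent.H666R3.NG Pool.Agent.Helper198.Sch Pool.Agent.Q79.QD

attribute [local instance] MvPolynomial.gradedAlgebra

/-- **Theorem.**  There are an elliptic curve `E` over the complex numbers (a smooth projective
integral curve of genus one with a rational point `o`), an ample line bundle `L` on `E` and a smooth
quasi-diagonal `S ⊂ E × E` over `(E, L)` of genus four. -/
theorem result :
    ∃ (E S : Scheme.{0}) (sE : E ⟶ Cpt) (o : Cpt ⟶ E) (L : LBd E)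
      (j : S ⟶ (pwr sE 2).left),
      IsSmoothCurve sE 1 ∧ o ≫ sE = 𝟙 Cpt ∧ L.IsAmple ∧
        IsQuasiDiagonal sE L 2 j ∧ IsSmoothCurve (j ≫ (pwr sE 2).hom) 4 := by
  have h3 : (-3 : ℂ) ≠ 0 := by norm_num
  have hg : Pool.Agent.Q79.QD.Good (-3) 0 0 1 := good_two h3
  obtain ⟨p1, h1, h1'⟩ := (linSE (α := -3) (β := 0) (γ := 0) (δ := 1) (one_mul 1) rel1).exists_map
    he_S
  obtain ⟨p2, h2, h2'⟩ := (linSE (α := -3) (β := 0) (γ := 0) (δ := 1) (one_mul 1) rel2).exists_map
    he_S
  have hp1 : (linSE (α := -3) (β := 0) (γ := 0) (δ := 1) (one_mul 1) rel1).IsMap p1 := ⟨h1, h1'⟩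
  have hp2 : (linSE (α := -3) (β := 0) (γ := 0) (δ := 1) (one_mul 1) rel2).IsMap p2 := ⟨h2, h2'⟩
  have hf : ∀ i, (![p1, p2] : Fin 2 → _) i ≫ V.str (JE (-3) 0 0 1) = V.str (JS (-3) 0 0 1) := by
    intro i
    fin_cases i
    · exact h1
    · exact h2
  have hPE := V_proper (JE (-3) 0 0 1)
  have hPS := V_proper (JS (-3) 0 0 1)
  have hpr := tup_pr (V.str (JE (-3) 0 0 1)) (V.str (JS (-3) 0 0 1)) 2 ![p1, p2] hf
  refine ⟨V (JE (-3) 0 0 1), V (JS (-3) 0 0 1), V.str _,
    pt (JE (-3) 0 0 1) 2 ![0, 0, 1] rfl ?_, O1' (JE (-3) 0 0 1) eE he_E,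
    (tup (V.str (JE (-3) 0 0 1)) (V.str (JS (-3) 0 0 1)) 2 ![p1, p2] hf).1,
    ⟨hg.integralE, isProjective_V _, smoothE_two h3, genusE _ _ _ _⟩, pt_str _ _ _ _ _,
    isAmple_O1 he_E, ⟨hg.integralS, hg.dimS, ?_, ?_⟩, ?_⟩
  · apply aeval_ofSet
    rintro f rfl
    simp [cubE]
  · apply tup_closed
    intro T g h hgh
    refine joint_mono (K := Fin 2) he_S ![linSE (one_mul 1) rel1, linSE (one_mul 1) rel2]
      ![p1, p2] ?_ 0 ?_ T g h hgh
    · intro k
      fin_cases k
      · exact hp1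
      · exact hp2
    · intro i R _ φ ψ hk
      exact hgen12 i R φ ψ (hk 0) (hk 1)
  · intro a b
    rw [hpr a, hpr b]
    fin_cases a <;> fin_cases b
    · exact torsion_pull hp1 hp1 he_S he_E
    · exact torsion_pull hp1 hp2 he_S he_E
    · exact torsion_pull hp2 hp1 he_S he_E
    · exact torsion_pull hp2 hp2 he_S he_E
  · rw [(tup (V.str (JE (-3) 0 0 1)) (V.str (JS (-3) 0 0 1)) 2 ![p1, p2] hf).2]
    exact ⟨hg.integralS, isProjective_V _, smoothS_two h3, genusS _ _ _ _⟩

end Pool.Agent.Results.MP_d64a6e_ag.SmoothGenusFour
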